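import Mathlib

/-!
# Tail functions of tropicalized Gaussians over local fields: the proposed description fails for `d ≥ 3`

`K` is a non-archimedean local field (a nontrivially normed, ultrametric, locally compact field) with its
normalised valuation `val : K → ℤ ∪ {∞}`. A Gaussian with lattice `L = A O^d` is a random vector whose law
is the Haar probability measure of `L`; its tail function is `φ_L(v) = -log_q P(val X ≥ v)`.

For every `d ≥ 3` the tropical polynomial with the coefficients `c_I = |I| - 1` if `0 ∈ I` and `c_I = 0`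
otherwise (integers, supermodular, `c_∅ = 0`) is not `φ_L` for any lattice `L`, for any `K`. In fact it is
not the function `-log_q P(val X ≥ v)` of any random vector `X` in `K^d`, whatever its law: its values at
`e_0`, `e_0 + e_1`, `e_0 + e_2`, `e_0 + e_1 + e_2` are `1, 1, 1, 2`, and the events
`E₁ = {val X ≥ e_0 + e_1}` and `E₂ = {val X ≥ e_0 + e_2}`, both contained in `{val X ≥ e_0}` and with
intersection `{val X ≥ e_0 + e_1 + e_2}`, would give `2 / q ≤ 1 / q + 1 / q ^ 2`.
-/

set_option autoImplicit false

open MeasureTheory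

namespace Pool.Agent.Results.MP_90534d_pr.TailFunction

/-- `val` is the normalised valuation of the ultrametric field `K`: it takes all values in
`ℤ ∪ {∞}`, and its ring of integers is the closed unit ball. -/
structure IsNormalised {K : Type} [NontriviallyNormedField K] (val : AddValuation K (WithTop ℤ)) :
    Prop where
  surj : Function.Surjective val
  integers : ∀ x, 0 ≤ val x ↔ ‖x‖ ≤ 1

/-- The elements of valuation at least `n`, as an additive subgroup: `O` for `n = 0`, the maximal
ideal of `O` for `n = 1`. -/
def ball {K : Type} [NontriviallyNormedField K] (val : AddValuation K (WithTop ℤ)) (n : ℤ) :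
    AddSubgroup K where
  carrier := {x | (n : WithTop ℤ) ≤ val x}
  zero_mem' := by simp
  add_mem' := by
    intro x y hx hy
    exact le_trans (le_min hx hy) (val.map_add x y)
  neg_mem' := by
    intro x hx
    simpa using hx

/-- The number `q` of elements of the residue field: the index of the maximal ideal in `O`. -/
noncomputable def resCard {K : Type} [NontriviallyNormedField K] (val : AddValuation K (WithTop ℤ)) :
    ℕ :=
  (ball val 1).relIndex (ball val 0)

/-- The lattice `A O^d`. -/
def lattice {K : Type} [NontriviallyNormedField K] (val : AddValuation K (WithTop ℤ)) {d : ℕ}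
    (A : GL (Fin d) K) : Set (Fin d → K) :=
  {x | ∃ y : Fin d → K, (∀ i, 0 ≤ val (y i)) ∧ x = (A : Matrix (Fin d) (Fin d) K).mulVec y}

/-- `ν` is the law of the Gaussian with lattice `L`: the Haar probability measure of `L`. -/
structure IsGaussian {K : Type} [NontriviallyNormedField K] [MeasurableSpace K] {d : ℕ}
    (L : Set (Fin d → K)) (ν : Measure (Fin d → K)) : Prop where
  prob : ν Set.univ = 1
  supp : ν Lᶜ = 0
  inv : ∀ x ∈ L, ν.map (fun y => x + y) = ν

/-- The event that the tropicalization `V = (val X_1, …, val X_d)` satisfies `V ≥ v`. -/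
def tailSet {K : Type} [NontriviallyNormedField K] (val : AddValuation K (WithTop ℤ)) {d : ℕ}
    (v : Fin d → ℤ) : Set (Fin d → K) :=
  {x | ∀ i, (v i : WithTop ℤ) ≤ val (x i)}

/-- `φ(v) = -log_q P(V ≥ v)` for all `v ∈ ℤ^d`, where `V` is the tropicalization of a random vector
of law `ν`. -/
def IsTail {K : Type} [NontriviallyNormedField K] [MeasurableSpace K]
    (val : AddValuation K (WithTop ℤ)) {d : ℕ} (ν : Measure (Fin d → K))
    (φ : (Fin d → ℤ) → ℝ) : Prop :=
  ∀ v, φ v = -Real.logb (resCard val) (ν.real (tailSet val v))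

/-- The tropical polynomial `v ↦ max_I (∑_{i ∈ I} v_i - c_I)` on `ℝ^d`, supported on `{0,1}^d`. -/
noncomputable def tropPoly {d : ℕ} (c : Finset (Fin d) → ℤ) (v : Fin d → ℝ) : ℝ :=
  Finset.univ.sup' Finset.univ_nonempty (fun I : Finset (Fin d) => ∑ i ∈ I, v i - (c I : ℝ))

/-- `φ` is the restriction to `ℤ^d` of a tropical polynomial supported on `{0,1}^d` with integer
supermodular coefficients. -/
def IsTropSuper {d : ℕ} (φ : (Fin d → ℤ) → ℝ) : Prop :=
  ∃ c : Finset (Fin d) → ℤ, c ∅ = 0 ∧ (∀ I J, c I + c J ≤ c (I ∪ J) + c (I ∩ J)) ∧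
    ∀ v : Fin d → ℤ, φ v = tropPoly c (fun i => (v i : ℝ))

/-- The statement of Q1. -/
def Statement : Prop :=
  ∀ (d : ℕ), 1 ≤ d → ∀ (K : Type) [NontriviallyNormedField K] [IsUltrametricDist K]
    [LocallyCompactSpace K] [MeasurableSpace K] [BorelSpace K] (val : AddValuation K (WithTop ℤ)),
    IsNormalised val → ∀ φ : (Fin d → ℤ) → ℝ,
      (∃ (A : GL (Fin d) K) (ν : Measure (Fin d → K)), IsGaussian (lattice val A) ν ∧ IsTail val ν φ) ↔
        IsTropSuper φ

/-- The coefficients of the counterexample. -/
def cc {d : ℕ} (i0 : Fin d) (I : Finset (Fin d)) : ℤ := if i0 ∈ I then (I.card : ℤ) - 1 else 0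

theorem cc_super {d : ℕ} (i0 : Fin d) (I J : Finset (Fin d)) :
    cc i0 I + cc i0 J ≤ cc i0 (I ∪ J) + cc i0 (I ∩ J) := by
  unfold cc
  have h := Finset.card_union_add_card_inter I J
  have h1 : I.card ≤ (I ∪ J).card := Finset.card_le_card Finset.subset_union_left
  have h2 : J.card ≤ (I ∪ J).card := Finset.card_le_card Finset.subset_union_right
  by_cases hI : i0 ∈ I <;> by_cases hJ : i0 ∈ J <;>
    simp only [Finset.mem_union, Finset.mem_inter, hI, hJ, or_true, true_or, or_false, and_true,
      and_false, false_and, true_and, if_true, if_false, or_self, and_self] <;> omega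

/-- The value at the indicator of a set `T` which contains `i0`. -/
theorem trop_ind {d : ℕ} (i0 : Fin d) (T : Finset (Fin d)) (hT : i0 ∈ T) :
    tropPoly (cc i0) (fun i => (((if i ∈ T then 1 else 0 : ℤ)) : ℝ)) =
      max 1 ((T.card : ℝ) - 1) := by
  have hs : ∀ I : Finset (Fin d), (∑ i ∈ I, (((if i ∈ T then 1 else 0 : ℤ)) : ℝ)) =
      ((I ∩ T).card : ℝ) := by
    intro I
    push_cast
    rw [Finset.sum_boole, Finset.filter_mem_eq_inter]
  unfold tropPoly
  apply le_antisymm
  · apply Finset.sup'_le
    intro I _
    rw [hs]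
    by_cases hI : i0 ∈ I
    · have h1 : ((I ∩ T).card : ℝ) ≤ (I.card : ℝ) := by
        exact_mod_cast Finset.card_le_card Finset.inter_subset_left
      refine le_max_of_le_left ?_
      simp only [cc, hI, if_true]
      push_cast
      linarith
    · have h1 : (I ∩ T).card + 1 ≤ T.card := by
        have h2 : I ∩ T ⊆ T.erase i0 := by
          intro x hx
          rw [Finset.mem_inter] at hx
          rw [Finset.mem_erase]
          refine ⟨?_, hx.2⟩
          rintro rfl
          exact hI hx.1
        have h3 := Finset.card_le_card h2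
        rw [Finset.card_erase_of_mem hT] at h3
        have h4 : 0 < T.card := Finset.card_pos.2 ⟨i0, hT⟩
        omega
      refine le_max_of_le_right ?_
      simp only [cc, hI, if_false]
      have h2 : ((I ∩ T).card : ℝ) + 1 ≤ (T.card : ℝ) := by exact_mod_cast h1
      push_cast
      linarith
  · apply max_le
    · have h := Finset.le_sup' (fun I : Finset (Fin d) =>
        (∑ i ∈ I, (((if i ∈ T then 1 else 0 : ℤ)) : ℝ)) - ((cc i0 I : ℤ) : ℝ)) (Finset.mem_univ {i0})
      refine le_trans ?_ h
      simp only [Finset.sum_singleton, hT, if_true, cc, Finset.mem_singleton,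
        Finset.card_singleton]
      norm_num
    · have h := Finset.le_sup' (fun I : Finset (Fin d) =>
        (∑ i ∈ I, (((if i ∈ T then 1 else 0 : ℤ)) : ℝ)) - ((cc i0 I : ℤ) : ℝ))
        (Finset.mem_univ (T.erase i0))
      refine le_trans ?_ h
      simp only [hs]
      have h2 : T.erase i0 ∩ T = T.erase i0 := Finset.inter_eq_left.2 (Finset.erase_subset _ _)
      have h3 : cc i0 (T.erase i0) = 0 := by simp [cc]
      rw [h2, h3, Finset.card_erase_of_mem hT]
      have h4 : 1 ≤ T.card := Finset.card_pos.2 ⟨i0, hT⟩
      push_cast [Nat.cast_sub h4]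
      linarith

theorem measurableSet_ball {K : Type} [NontriviallyNormedField K] [MeasurableSpace K] [BorelSpace K]
    {val : AddValuation K (WithTop ℤ)} (hv : IsNormalised val) (n : ℤ) :
    MeasurableSet {x : K | (n : WithTop ℤ) ≤ val x} := by
  obtain ⟨p, hp⟩ := hv.surj (n : WithTop ℤ)
  have hp0 : p ≠ 0 := by
    rintro rfl
    rw [val.map_zero] at hp
    exact WithTop.coe_ne_top hp.symm
  have h : {x : K | (n : WithTop ℤ) ≤ val x} = {x : K | ‖x‖ ≤ ‖p‖} := by
    ext x
    have h1 : val x = val (x / p) + n := by
      rw [← hp, ← val.map_mul, div_mul_cancel₀ _ hp0]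
    have h2 : (n : WithTop ℤ) ≤ val x ↔ 0 ≤ val (x / p) := by
      rw [h1]
      cases hw : val (x / p) with
      | top => simp
      | coe w =>
        norm_cast
        omega
    simp only [Set.mem_ofPred_eq]
    rw [h2, hv.integers, norm_div, div_le_one (norm_pos_iff.2 hp0)]
  rw [h]
  exact (isClosed_le continuous_norm continuous_const).measurableSet

theorem measurableSet_tailSet {K : Type} [NontriviallyNormedField K] [MeasurableSpace K]
    [BorelSpace K] {val : AddValuation K (WithTop ℤ)} (hv : IsNormalised val) {d : ℕ}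
    (v : Fin d → ℤ) : MeasurableSet (tailSet val v) := by
  have h : tailSet val v = ⋂ i, (fun x : Fin d → K => x i) ⁻¹' {x : K | (v i : WithTop ℤ) ≤ val x} := by
    ext x
    simp [tailSet]
  rw [h]
  exact MeasurableSet.iInter fun i => (measurable_pi_apply i) (measurableSet_ball hv (v i))

/-- The function of the counterexample is not the tail function of any random vector. -/
theorem not_tail {K : Type} [NontriviallyNormedField K] [MeasurableSpace K] [BorelSpace K]
    {val : AddValuation K (WithTop ℤ)} (hv : IsNormalised val) {d : ℕ} (i0 i1 i2 : Fin d)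
    (h01 : i0 ≠ i1) (h02 : i0 ≠ i2) (h12 : i1 ≠ i2) (ν : Measure (Fin d → K))
    (hν : ν Set.univ = 1) :
    ¬ IsTail val ν (fun v => tropPoly (cc i0) (fun i => (v i : ℝ))) := by
  intro h
  haveI : IsProbabilityMeasure ν := ⟨hν⟩
  set ind : Finset (Fin d) → Fin d → ℤ := fun T i => if i ∈ T then 1 else 0 with hind
  have key : ∀ T : Finset (Fin d), i0 ∈ T →
      max 1 ((T.card : ℝ) - 1) = -Real.logb (resCard val) (ν.real (tailSet val (ind T))) := by
    intro T hT
    rw [← h (ind T)]
    exact (trop_ind i0 T hT).symm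
  set q : ℝ := (resCard val : ℝ) with hq
  have k1 := key {i0} (by simp)
  have k2 := key {i0, i1} (by simp)
  have k3 := key {i0, i2} (by simp)
  have k4 := key {i0, i1, i2} (by simp)
  have c2 : ({i0, i1} : Finset (Fin d)).card = 2 := Finset.card_pair h01
  have c3 : ({i0, i2} : Finset (Fin d)).card = 2 := Finset.card_pair h02
  have c4 : ({i0, i1, i2} : Finset (Fin d)).card = 3 := by
    rw [Finset.card_insert_of_notMem (by simp [h01, h02]), Finset.card_pair h12]
  rw [Finset.card_singleton] at k1
  rw [c2] at k2
  rw [c3] at k3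
  rw [c4] at k4
  norm_num at k1 k2 k3 k4
  have q1 : 1 < q := by
    rcases Nat.lt_or_ge 1 (resCard val) with h1 | h1
    · rw [hq]; exact_mod_cast h1
    · exfalso
      have h2 : Real.log q = 0 := by
        interval_cases h3 : resCard val
        · simp [hq]
        · simp [hq]
      rw [Real.logb, h2, div_zero] at k1
      norm_num at k1
  have q0 : 0 < q := by linarith
  have pw : ∀ (p : ℝ) (a : ℝ), 0 ≤ p → a ≠ 0 → -Real.logb q p = a → p = q ^ (-a) := by
    intro p a hp ha h1
    have hp0 : 0 < p := by
      rcases hp.lt_or_eq with h2 | h2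
      · exact h2
      · exfalso
        rw [← h2, Real.logb_zero, neg_zero] at h1
        exact ha h1.symm
    have h3 : Real.logb q p = -a := by linarith
    rw [← h3, Real.rpow_logb q0 q1.ne' hp0]
  have p1 := pw _ 1 measureReal_nonneg one_ne_zero k1.symm
  have p2 := pw _ 1 measureReal_nonneg one_ne_zero k2.symm
  have p3 := pw _ 1 measureReal_nonneg one_ne_zero k3.symm
  have p4 := pw _ 2 measureReal_nonneg two_ne_zero k4.symm
  have hsub : tailSet val (ind {i0, i1}) ∪ tailSet val (ind {i0, i2}) ⊆ tailSet val (ind {i0}) := by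
    have hmono : ∀ T T' : Finset (Fin d), T ⊆ T' → tailSet val (ind T') ⊆ tailSet val (ind T) := by
      intro T T' hTT x hx i
      refine le_trans ?_ (hx i)
      have : ind T i ≤ ind T' i := by
        simp only [hind]
        by_cases h1 : i ∈ T
        · simp [h1, hTT h1]
        · rw [if_neg h1]; split_ifs <;> norm_num
      exact_mod_cast this
    exact Set.union_subset (hmono _ _ (by simp)) (hmono _ _ (by simp))
  have hinter : tailSet val (ind {i0, i1}) ∩ tailSet val (ind {i0, i2}) =
      tailSet val (ind {i0, i1, i2}) := by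
    ext x
    simp only [Set.mem_inter_iff, tailSet, Set.mem_ofPred_eq, ← forall_and]
    refine forall_congr' fun i => ?_
    simp only [hind, Finset.mem_insert, Finset.mem_singleton]
    by_cases h1 : i = i0
    · simp [h1]
    · by_cases h2 : i = i1
      · have h3 : i1 ≠ i2 := h12
        have h4 : i1 ≠ i0 := Ne.symm h01
        subst h2
        simp only [h1, h3, false_or, or_false, if_true, if_false, or_true, true_or]
        constructor
        · exact fun h5 => h5.1
        · intro h5
          refine ⟨h5, le_trans ?_ h5⟩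
          norm_cast
      · by_cases h3 : i = i2
        · subst h3
          simp only [h1, h2, false_or, or_false, if_true, if_false, or_true, true_or]
          constructor
          · exact fun h5 => h5.2
          · intro h5
            refine ⟨le_trans ?_ h5, h5⟩
            norm_cast
        · simp [h1, h2, h3]
  have hie := measureReal_union_add_inter (μ := ν) (s := tailSet val (ind {i0, i1}))
    (measurableSet_tailSet hv (ind {i0, i2}))
  rw [hinter, p2, p3, p4] at hie
  have hle : ν.real (tailSet val (ind {i0, i1}) ∪ tailSet val (ind {i0, i2})) ≤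
      ν.real (tailSet val (ind {i0})) := measureReal_mono hsub
  rw [p1] at hle
  have e1 : q ^ (-(1 : ℝ)) = q⁻¹ := by rw [Real.rpow_neg q0.le, Real.rpow_one]
  have e2 : q ^ (-(2 : ℝ)) = q⁻¹ * q⁻¹ := by
    rw [Real.rpow_neg q0.le]
    norm_num
    rw [sq, mul_inv]
  rw [e1] at hie hle
  rw [e2] at hie
  have h5 : q⁻¹ < 1 := inv_lt_one_of_one_lt₀ q1
  have h6 : 0 < q⁻¹ := inv_pos.2 q0
  nlinarith

theorem padic_normalised : IsNormalised (Padic.addValuation (p := 2)) where
  surj := by
    intro n
    cases n with
    | top => exact ⟨0, by simp⟩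
    | coe n =>
      have h2 : ((2 : ℕ) : ℚ_[2]) ≠ 0 := by norm_num
      refine ⟨((2 : ℕ) : ℚ_[2]) ^ n, ?_⟩
      rw [Padic.addValuation.apply (zpow_ne_zero n h2)]
      simp
  integers := by
    intro x
    rw [Padic.norm_le_one_iff_val_nonneg]
    by_cases hx : x = 0
    · subst hx; simp
    · rw [Padic.addValuation.apply hx]
      norm_cast

/-- **Q1, negative.** For every `d ≥ 3` there is a tropical polynomial supported on `{0,1}^d` with
integer supermodular coefficients whose restriction to `ℤ^d` is, for every non-archimedean local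
field `K`, not the tail function `-log_q P(V ≥ v)` of any random vector in `K^d`; in particular it is
not `φ_L` for any lattice `L ⊂ K^d`. So the statement of Q1 is false. -/
theorem result :
    (∀ d : ℕ, 3 ≤ d → ∃ φ : (Fin d → ℤ) → ℝ, IsTropSuper φ ∧
      ∀ (K : Type) [NontriviallyNormedField K] [IsUltrametricDist K] [LocallyCompactSpace K]
        [MeasurableSpace K] [BorelSpace K] (val : AddValuation K (WithTop ℤ)), IsNormalised val →
        (∀ ν : Measure (Fin d → K), ν Set.univ = 1 → ¬ IsTail val ν φ) ∧
        ¬ ∃ (A : GL (Fin d) K) (ν : Measure (Fin d → K)),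
          IsGaussian (lattice val A) ν ∧ IsTail val ν φ) ∧
    ¬ Statement := by
  have main : ∀ d : ℕ, 3 ≤ d → ∃ φ : (Fin d → ℤ) → ℝ, IsTropSuper φ ∧
      ∀ (K : Type) [NontriviallyNormedField K] [IsUltrametricDist K] [LocallyCompactSpace K]
        [MeasurableSpace K] [BorelSpace K] (val : AddValuation K (WithTop ℤ)), IsNormalised val →
        (∀ ν : Measure (Fin d → K), ν Set.univ = 1 → ¬ IsTail val ν φ) ∧
        ¬ ∃ (A : GL (Fin d) K) (ν : Measure (Fin d → K)),
          IsGaussian (lattice val A) ν ∧ IsTail val ν φ := by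
    intro d hd
    let i0 : Fin d := ⟨0, by omega⟩
    let i1 : Fin d := ⟨1, by omega⟩
    let i2 : Fin d := ⟨2, by omega⟩
    have h01 : i0 ≠ i1 := by simp [i0, i1]
    have h02 : i0 ≠ i2 := by simp [i0, i2]
    have h12 : i1 ≠ i2 := by simp [i1, i2]
    refine ⟨fun v => tropPoly (cc i0) (fun i => (v i : ℝ)),
      ⟨cc i0, by simp [cc], cc_super i0, fun v => rfl⟩, ?_⟩
    intro K _ _ _ _ _ val hv
    refine ⟨fun ν hν => not_tail hv i0 i1 i2 h01 h02 h12 ν hν, ?_⟩
    rintro ⟨A, ν, hG, hT⟩
    exact not_tail hv i0 i1 i2 h01 h02 h12 ν hG.prob hT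
  refine ⟨main, fun h => ?_⟩
  obtain ⟨φ, hφ, hno⟩ := main 3 le_rfl
  letI : MeasurableSpace ℚ_[2] := borel ℚ_[2]
  haveI : BorelSpace ℚ_[2] := ⟨rfl⟩
  exact (hno ℚ_[2] Padic.addValuation padic_normalised).2
    ((h 3 (by norm_num) ℚ_[2] Padic.addValuation padic_normalised φ).2 hφ)

end Pool.Agent.Results.MP_90534d_pr.TailFunction
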